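import Mathlib
import Pool.Agent.H39.TwoCosets.PSL2
import Pool.Agent.H39.TwoCosets.Alt

set_option autoImplicit false

namespace Pool.Agent.Results.MP_548a49_al.TwoCosetTiles

universe u v

/-- `G = AB` for some subsets `A`, `B` with `|A| = a` and `|B| = b`. -/
def Realised (G : Type u) [Group G] (a b : ℕ) : Prop :=
  ∃ A B : Set G, A.ncard = a ∧ B.ncard = b ∧ ∀ g : G, ∃ x ∈ A, ∃ y ∈ B, x * y = g

/-- Every factorization `|G| = ab` is realised by subsets. -/
def AllRealised (G : Type u) [Group G] : Prop :=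
  ∀ a b : ℕ, a * b = Nat.card G → Realised G a b

open scoped Pointwise in
theorem realised_iff {G : Type u} [Group G] {a b : ℕ} :
    Realised G a b ↔ Pool.Agent.H39.TwoCosets.Fac G a b := by
  constructor
  · rintro ⟨A, B, hA, hB, h⟩
    refine ⟨A, B, hA, hB, Set.eq_univ_iff_forall.2 fun g => ?_⟩
    obtain ⟨x, hx, y, hy, e⟩ := h g
    exact Set.mem_mul.2 ⟨x, hx, y, hy, e⟩
  · rintro ⟨A, B, hA, hB, h⟩
    refine ⟨A, B, hA, hB, fun g => ?_⟩
    have hg : g ∈ A * B := by rw [h]; trivial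
    exact Set.mem_mul.1 hg

theorem all_iff {G : Type u} [Group G] :
    AllRealised G ↔ Pool.Agent.H39.TwoCosets.Good G :=
  ⟨fun h a b hab => realised_iff.1 (h a b hab), fun h a b hab => realised_iff.2 (h a b hab)⟩

/-- Factorizing finite groups into two subsets of prescribed sizes. -/
theorem result :
    -- (1) two cosets of a subgroup tile the group
    (∀ (G : Type u) [Group G] [Finite G] (H : Subgroup G) (y : G),
      Even (H.relIndex (Subgroup.closure ((H : Set G) ∪ {y}))) →
      ∃ B : Set G, B.ncard * (2 * Nat.card H) = Nat.card G ∧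
        ∀ g : G, ∃ b ∈ B, ∃ h ∈ H, g = b * h ∨ g = b * y * h) ∧
    (∀ (G : Type u) [Group G] [Finite G] (H : Subgroup G), 2 * Nat.card H ∣ Nat.card G →
      ∃ y : G, Even (H.relIndex (Subgroup.closure ((H : Set G) ∪ {y})))) ∧
    -- (2) factorizations of a subgroup `D` of `S` which is normalised by `y`
    (∀ (G : Type u) [Group G] [Finite G] (S D : Subgroup G) (y : G), D ≤ S →
      (∀ d ∈ D, y * d * y⁻¹ ∈ D) → Even (S.relIndex (Subgroup.closure ((S : Set G) ∪ {y}))) →
      ∀ a b m : ℕ, b * a = Nat.card D → Realised D b a → 2 * m * Nat.card S = Nat.card G →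
      Realised G (m * b) (2 * D.relIndex S * a)) ∧
    -- (3) half the index of a subgroup of a subgroup; in particular `a = 2 |H|`
    (∀ (G : Type u) [Group G] [Finite G] (S L : Subgroup G), S ≤ L → ∀ a b : ℕ,
      a * b = Nat.card G → 2 * b = S.relIndex L → Realised G a b ∧ Realised G b a) ∧
    -- (4) doubles of prime powers, and small numbers
    (∀ (G : Type u) [Group G] [Finite G] (a b : ℕ), a * b = Nat.card G →
      (∃ p k : ℕ, p.Prime ∧ (a = 2 * p ^ k ∨ b = 2 * p ^ k)) → Realised G a b) ∧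
    (∀ (G : Type u) [Group G] [Finite G] (a b : ℕ), a * b = Nat.card G → a ≤ 11 ∨ b ≤ 11 →
      Realised G a b) ∧
    -- (5) a subgroup with subgroups of all possible orders, and with a suitable index
    (∀ (G : Type u) [Group G] [Finite G] (K : Subgroup G),
      (∀ d : ℕ, d ∣ Nat.card K → ∃ S : Subgroup G, S ≤ K ∧ Nat.card S = d) →
      (∀ c d : ℕ, c * d = K.index → c ≤ 2 ∨ d ≤ 2) → AllRealised G) ∧
    (∀ (p : ℕ) [Fact p.Prime], p ≠ 2 → (∀ c d : ℕ, c * d = p + 1 → c ≤ 2 ∨ d ≤ 2) →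
      AllRealised (Matrix.ProjectiveSpecialLinearGroup (Fin 2) (ZMod p))) ∧
    -- (6) two-transitive actions of degree `2 r ^ k` with `2 r ^ k - 1` a prime power
    (∀ (G : Type u) [Group G] [Finite G] (X : Type v) [Finite X] [MulAction G X] (r k q e : ℕ),
      (∀ a b c d : X, a ≠ b → c ≠ d → ∃ g : G, g • a = c ∧ g • b = d) →
      r.Prime → r ≠ 2 → k ≠ 0 → Nat.card X = 2 * r ^ k → q.Prime → 2 * r ^ k - 1 = q ^ e →
      r ^ (2 * k - 1) ∣ Nat.card G → q ^ (2 * e - 1) ∣ Nat.card G →
      ∀ x x' : X, x ≠ x' → AllRealised (MulAction.stabilizer G x) →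
      AllRealised (MulAction.stabilizer G x ⊓ MulAction.stabilizer G x' : Subgroup G) →
      AllRealised G) ∧
    -- (7) alternating and symmetric groups of degree at most eleven
    (∀ (α : Type) [Fintype α] [DecidableEq α], Fintype.card α ≤ 11 →
      AllRealised (alternatingGroup α) ∧ AllRealised (Equiv.Perm α)) := by
  refine ⟨?_, ?_, ?_, ?_, ?_, ?_, ?_, ?_, ?_, ?_⟩
  · intro G _ _ H y h
    exact Pool.Agent.H39.TwoCosets.tile_general H y h
  · intro G _ _ H h
    exact Pool.Agent.H39.TwoCosets.exists_elt H h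
  · intro G _ _ S D y hDS hy hev a b m hba hfac hm
    exact realised_iff.2 (Pool.Agent.H39.TwoCosets.fac_master S D y hDS hy hev hba
      (realised_iff.1 hfac) hm)
  · intro G _ _ S L hSL a b hab h
    have := Pool.Agent.H39.TwoCosets.fac_nested S L hSL hab (Or.inr h)
    exact ⟨realised_iff.2 this.1, realised_iff.2 this.2⟩
  · rintro G _ _ a b hab ⟨p, k, hp, h | h⟩
    · exact realised_iff.2 (Pool.Agent.H39.TwoCosets.fac_prime_pow hab ⟨p, k, hp, Or.inr h⟩).1
    · exact realised_iff.2 (Pool.Agent.H39.TwoCosets.fac_prime_pow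
        (by rw [mul_comm]; exact hab) ⟨p, k, hp, Or.inr h⟩).2
  · intro G _ _ a b hab h
    exact realised_iff.2 (Pool.Agent.H39.TwoCosets.fac_small hab h)
  · intro G _ _ K hK hidx a b hab
    exact realised_iff.2 (Pool.Agent.H39.TwoCosets.fac_index K hK hidx hab)
  · intro p _ hp hidx a b hab
    exact realised_iff.2 (Pool.Agent.H39.TwoCosets.psl_fac hp hidx hab)
  · intro G _ _ X _ _ r k q e h2t hr hr2 hk hX hq hqe hrk hdvd x x' hxx gK gD
    exact all_iff.2 (Pool.Agent.H39.TwoCosets.good_of_two_trans h2t hr hr2 hk hX hq hqe hrk hdvd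
      x x' hxx (all_iff.1 gK) (all_iff.1 gD))
  · intro α _ _ h
    exact ⟨all_iff.2 (Pool.Agent.H39.TwoCosets.good_alt _ h α rfl),
      all_iff.2 (Pool.Agent.H39.TwoCosets.good_perm α h)⟩

end Pool.Agent.Results.MP_548a49_al.TwoCosetTiles
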